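import Pool.Agent.ASD.Stmts5
import Pool.Agent.Helper90_ASO.CPG

/-!
# Squad ASD, row DFB: difference with a comparison block
-/

set_option autoImplicit false

open scoped BigOperators

noncomputable section

namespace Pool.Agent.PP.SD.H1

open Pool.Agent.Helper51_AWC Pool.Agent.Helper79_WRA Pool.Agent.PP Pool.Agent.PP.KF
open Pool.Agent.PP.K9 Pool.Agent.PP.K9.H97 Pool.Agent.PP.H75 Pool.Agent.PP.T3 Pool.Agent.PP.SO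
open Pool.Agent.PP.SD

attribute [local instance] Ideal.Quotient.field

theorem dfb (hFid : FidStmt) (hPpe : PpeStmt) (hPax : PaxStmt) (hT5b : T5bStmt)
    (hDix : DixStmt) : DfbStmt := by
  intro ℓ _ M _ hM hℓ2 V₀ _ _ E₀ A₁ A₂ hD n r hr hn ρ₁ ρ₂ x₁ x₂ c d hc hd hc1 hd1 F₁₃ F₁₂ K hρ₁ hρ₂
    hρ0 hFY
  obtain ⟨hOf, -, h3, -, -, -, h7⟩ := hDix ℓ V₀ E₀ A₁ A₂ hD
  obtain ⟨K₀, hK₀⟩ := hPpe ℓ V₀ E₀ A₁ A₂ n c d hc hd F₁₃ F₁₂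
  refine ⟨max K₀ 2, fun k hk G G' H _ _ _ _ _ _ B B' BR j m hB hB' hBR hPE hPE' hPEH hrel hrel'
    hP1 hP2 hU => ?_⟩
  have hkK : K₀ ≤ k := (le_max_left _ _).trans hk
  have hk2 : 2 ≤ k := (le_max_right _ _).trans hk
  have hℓ : ℓ.Prime := Fact.out
  haveI : Finite (MulAut V₀) :=
    Finite.of_injective (fun σ : MulAut V₀ => (σ : V₀ → V₀)) DFunLike.coe_injective
  have f1 := hFid ℓ M hM hℓ2 V₀ G E₀ A₁ A₂ hD B hB n m hPE ρ₁ ρ₂ x₁ x₂ c d hc hd hc1 hd1 F₁₃ F₁₂ K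
    hρ₁ hρ₂ hρ0 hFY hrel
  have f2 := hFid ℓ M hM hℓ2 V₀ G' E₀ A₁ A₂ hD B' hB' n m hPE' ρ₁ ρ₂ x₁ x₂ c d hc hd hc1 hd1 F₁₃
    F₁₂ K hρ₁ hρ₂ hρ0 hFY hrel'
  obtain ⟨g1, g2⟩ := hPax ℓ M hM hℓ2 V₀ G' H E₀ A₁ A₂ hD B' BR j hB'.toSb hBR.toSb n m hPE'
  obtain ⟨p1, p2⟩ := g1 hP1 c d F₁₃ F₁₂
  obtain ⟨p3, p4, -, p5⟩ := g2 hP2 c d F₁₂
  -- the local part
  have hkinv : ((kE E₀ c : ℂ) * kE E₀ d)⁻¹ ∈ RM M := by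
    rw [mul_inv]
    exact mul_mem (inv_nat_RM hℓ hM (h3 c hc hc1).2.2.2.1) (inv_nat_RM hℓ hM (h3 d hd hd1).2.2.2.1)
  have q1 := hK₀ k hkK B.U B'.U (fun W hW => hB.un W (hOf W hW)) (fun W hW => hB'.un W (hOf W hW))
    hU
  have q2 : ((kE E₀ c : ℂ) * kE E₀ d)⁻¹ *
      ((((PX13 E₀ A₁ A₂ B.U c d F₁₃ + PX12 E₀ A₁ A₂ B.U c d F₁₂) -
        (PX13 E₀ A₁ A₂ B'.U c d F₁₃ + PX12 E₀ A₁ A₂ B'.U c d F₁₂) : ℚ)) : ℂ) ∈ RM M :=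
    mul_mem hkinv (SO.H90.rl_rm hM q1)
  -- the part `AX5`
  have q3 : AX5 E₀ A₂ B.U BR m c d F₁₂ - AX5 E₀ A₂ B'.U BR m c d F₁₂ ∈ RM M := by
    unfold AX5
    rw [← mul_sub]
    apply mul_mem hkinv
    rw [← finsum_mem_sub_distrib _ _ (Set.toFinite _)]
    apply SO.H90.finsum_mem_RM
    rintro σ ⟨hσ, hκ1⟩
    rw [← finsum_mem_sub_distrib _ _ (Set.toFinite _)]
    apply SO.H90.finsum_mem_RM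
    rintro w ⟨hw, hw1⟩
    obtain ⟨κ, hκ⟩ : ∃ κ, κ = c * σ d := ⟨_, rfl⟩
    rw [← hκ] at hκ1 ⊢
    have hκA : κ ∈ A₁ := by
      rw [hκ]
      exact A₁.mul_mem hc (hD.s1 σ hσ d hd)
    obtain ⟨o1, -, -, -⟩ := (h7 κ hκA hκ1).1 w hw hw1
    obtain ⟨q, hq, hUq⟩ := hU _ o1
    have hκw : κ ∉ Subgroup.zpowers w := by
      intro h
      apply hκ1
      have h4 : κ ∈ A₁ ⊓ A₂ := ⟨hκA, (Subgroup.zpowers_le.2 hw) h⟩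
      rw [hD.ds] at h4
      exact Subgroup.mem_bot.1 h4
    have t := hT5b ℓ M hM hℓ2 V₀ H E₀ hD.toFq BR hBR n m r hr hn hPEH ρ₁ ρ₂ x₁ x₂ c d F₁₃ F₁₂ K
      hρ₁ hρ₂ hFY κ w σ hw1 hκw
    obtain ⟨k', rfl⟩ : ∃ k', k = 2 + k' := ⟨k - 2, by omega⟩
    have hUc : ((B.U (Subgroup.zpowers (κ * w)) : ℚ) : ℂ) -
        ((B'.U (Subgroup.zpowers (κ * w)) : ℚ) : ℂ) = (ℓ : ℂ) ^ (2 + k') * (q : ℂ) := by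
      have := congrArg (fun z : ℚ => (z : ℂ)) hUq
      push_cast at this
      exact this
    have e : ((B.U (Subgroup.zpowers (κ * w)) : ℚ) : ℂ) * T5 BR m κ w σ F₁₂ -
        ((B'.U (Subgroup.zpowers (κ * w)) : ℚ) : ℂ) * T5 BR m κ w σ F₁₂ =
        (q : ℂ) * ((ℓ : ℂ) ^ k' * ((ℓ : ℂ) ^ 2 * T5 BR m κ w σ F₁₂)) := by
      rw [← sub_mul, hUc, pow_add]
      ring
    rw [e]
    exact mul_mem (SO.H90.rl_rm hM hq) (mul_mem (pow_mem (rr_nat (M := M) ℓ).1 k') t)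
  have e : MN E₀ ℓ B x₁ x₂ c d - MN E₀ ℓ B' x₁ x₂ c d +
      (AX1 A₁ B m c d F₁₃ - AX1 A₁ BR m c d F₁₃) +
      (AX2 E₀ A₁ B m c d F₁₂ - AX2 E₀ A₁ BR m c d F₁₂) +
      (AX3 E₀ A₂ B m c d F₁₂ - AX3 E₀ A₂ BR m c d F₁₂) +
      (AX4 E₀ A₂ B m c d F₁₂ - AX4 E₀ A₂ BR m c d F₁₂) +
      (AX5 E₀ A₂ B.U B m c d F₁₂ - AX5 E₀ A₂ B.U BR m c d F₁₂) =
      ((MN E₀ ℓ B x₁ x₂ c d + ((kE E₀ c : ℂ) * kE E₀ d)⁻¹ *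
      ((PX13 E₀ A₁ A₂ B.U c d F₁₃ + PX12 E₀ A₁ A₂ B.U c d F₁₂ : ℚ) : ℂ) +
    (AX1 A₁ B m c d F₁₃ + AX2 E₀ A₁ B m c d F₁₂ + AX3 E₀ A₂ B m c d F₁₂ +
      AX4 E₀ A₂ B m c d F₁₂ + AX5 E₀ A₂ B.U B m c d F₁₂)) -
      (MN E₀ ℓ B' x₁ x₂ c d + ((kE E₀ c : ℂ) * kE E₀ d)⁻¹ *
      ((PX13 E₀ A₁ A₂ B'.U c d F₁₃ + PX12 E₀ A₁ A₂ B'.U c d F₁₂ : ℚ) : ℂ) +
    (AX1 A₁ B' m c d F₁₃ + AX2 E₀ A₁ B' m c d F₁₂ + AX3 E₀ A₂ B' m c d F₁₂ +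
      AX4 E₀ A₂ B' m c d F₁₂ + AX5 E₀ A₂ B'.U B' m c d F₁₂))) -
      ((kE E₀ c : ℂ) * kE E₀ d)⁻¹ *
      ((((PX13 E₀ A₁ A₂ B.U c d F₁₃ + PX12 E₀ A₁ A₂ B.U c d F₁₂) -
        (PX13 E₀ A₁ A₂ B'.U c d F₁₃ + PX12 E₀ A₁ A₂ B'.U c d F₁₂) : ℚ)) : ℂ) -
      (AX5 E₀ A₂ B.U BR m c d F₁₂ - AX5 E₀ A₂ B'.U BR m c d F₁₂) := by
    rw [p1, p2, p3, p4, p5 B'.U]
    push_cast
    ring
  rw [e]
  exact sub_mem (sub_mem (sub_mem f1 f2) q2) q3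

end Pool.Agent.PP.SD.H1
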