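import Pool.Agent.ASD.Stmts5

/-!
# Squad ASD, row KAD: the arithmetic
-/

set_option autoImplicit false

open scoped BigOperators

noncomputable section

namespace Pool.Agent.PP.SD.H1

open Pool.Agent.Helper51_AWC Pool.Agent.Helper79_WRA Pool.Agent.PP Pool.Agent.PP.KF
open Pool.Agent.PP.K9 Pool.Agent.PP.K9.H97 Pool.Agent.PP.H75 Pool.Agent.PP.T3 Pool.Agent.PP.SO
open Pool.Agent.PP.SD

theorem fs {α N : Type} [AddCommMonoid N] [Fintype α] (P : α → Prop) [DecidablePred P]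
    (f : α → N) : ∑ᶠ σ ∈ {σ | P σ}, f σ = ∑ σ ∈ Finset.univ.filter P, f σ := by
  have h : ((Finset.univ.filter P : Finset α) : Set α) = {σ | P σ} := by
    ext
    simp
  rw [← h]
  exact finsum_mem_coe_finset f _

section
variable {ℓ : ℕ} [hℓ : Fact ℓ.Prime]

theorem int_rl (z : ℤ) : (z : ℚ) ∈ SOR.Rl ℓ := intCast_mem _ z

theorem nat_rl (z : ℕ) : (z : ℚ) ∈ SOR.Rl ℓ := natCast_mem _ z

/-- the inverse of an integer prime to `ℓ` -/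
theorem inv_rl {z : ℤ} (hz : ¬ (ℓ : ℤ) ∣ z) : (z : ℚ)⁻¹ ∈ SOR.Rl ℓ := by
  change ¬ ℓ ∣ ((z : ℚ)⁻¹).den
  rw [Rat.inv_intCast_den]
  split_ifs with h
  · rw [h] at hz
    exact absurd (dvd_zero _) hz
  · intro h
    exact hz (Int.natCast_dvd.2 h)

theorem cancel {z : ℤ} (hz : ¬ (ℓ : ℤ) ∣ z) {y : ℚ} {n : ℕ}
    (h : ∃ q ∈ SOR.Rl ℓ, z * y = (ℓ : ℚ) ^ n * q) : ∃ q ∈ SOR.Rl ℓ, y = (ℓ : ℚ) ^ n * q := by
  obtain ⟨q, hq, h⟩ := h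
  refine ⟨(z : ℚ)⁻¹ * q, mul_mem (inv_rl hz) hq, ?_⟩
  have hz0 : (z : ℚ) ≠ 0 := by
    have : z ≠ 0 := fun h0 => hz (h0 ▸ dvd_zero _)
    exact_mod_cast this
  field_simp
  linarith

theorem int_of_rl {k : ℤ} {n : ℕ} (h : ∃ q ∈ SOR.Rl ℓ, (k : ℚ) = (ℓ : ℚ) ^ n * q) :
    ((ℓ ^ n : ℕ) : ℤ) ∣ k := by
  obtain ⟨q, hq, h⟩ := h
  have hq' : ¬ ℓ ∣ q.den := hq
  have h1 : k * (q.den : ℤ) = ((ℓ ^ n : ℕ) : ℤ) * q.num := by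
    have h2 := Rat.mul_den_eq_num q
    have h3 : (k : ℚ) * q.den = ((ℓ ^ n : ℕ) : ℚ) * q.num := by
      rw [h, ← h2]
      push_cast
      ring
    exact_mod_cast h3
  have h2 : IsCoprime ((ℓ ^ n : ℕ) : ℤ) (q.den : ℤ) := by
    rw [Nat.isCoprime_iff_coprime]
    exact Nat.Coprime.pow_left _ ((Nat.Prime.coprime_iff_not_dvd hℓ.out).2 hq')
  exact h2.dvd_of_dvd_mul_right (Dvd.intro _ h1.symm)

end

theorem val_ndvd {ℓ : ℕ} [hℓ : Fact ℓ.Prime] {z : ZMod ℓ} (hz : z ≠ 0) :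
    ¬ (ℓ : ℤ) ∣ ((z.val : ℕ) : ℤ) := by
  intro h
  apply hz
  have h1 : ℓ ∣ z.val := by exact_mod_cast h
  have h2 := (ZMod.natCast_eq_zero_iff z.val ℓ).2 h1
  rwa [ZMod.natCast_zmod_val] at h2

theorem kad (hDix : DixStmt) : KadStmt := by
  intro ℓ _ hℓ2 V₀ _ _ E₀ A₁ A₂ hD ρ hρ hρ2 hρ1 D N k hDR hNR hDj hR hS
  classical
  obtain ⟨-, ⟨hA1, -, -, -, -, -, -⟩, h3, -, -, ⟨χ, hχ1, hχ2, hχ3, hχ4⟩, -⟩ :=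
    hDix ℓ V₀ E₀ A₁ A₂ hD
  have hℓ : ℓ.Prime := Fact.out
  have hℓ0 : (ℓ : ℚ) ≠ 0 := by exact_mod_cast hℓ.ne_zero
  have hℓp : Prime (ℓ : ℤ) := Nat.prime_iff_prime_int.1 hℓ
  haveI : Finite (MulAut V₀) :=
    Finite.of_injective (fun σ : MulAut V₀ => (σ : V₀ → V₀)) DFunLike.coe_injective
  haveI : Fintype (MulAut V₀) := Fintype.ofFinite _
  -- the homomorphism
  have r1 : ρ 1 = 0 := by
    have := hρ 1 1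
    rw [mul_one] at this
    exact (add_eq_left.1 this.symm)
  have rinv : ∀ v, ρ v⁻¹ = -ρ v := by
    intro v
    have := hρ v v⁻¹
    rw [mul_inv_cancel, r1] at this
    exact (neg_eq_of_add_eq_zero_right this.symm).symm
  obtain ⟨x, hx⟩ : ∃ x : V₀ → ℤ, x = fun v => ((ρ v).val : ℤ) := ⟨_, rfl⟩
  have hxc : ∀ v, ((x v : ℤ) : ZMod ℓ) = ρ v := by
    intro v
    rw [hx]
    push_cast
    exact ZMod.natCast_zmod_val _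
  have hlf1 : ∀ v, lf ρ 1 v = x v := by
    intro v
    unfold lf
    rw [hx, if_neg, add_zero]
    rintro ⟨rfl, h⟩
    exact h r1
  have hlfe : ∀ v, ρ v ≠ 0 → lf ρ v v = x v + ℓ := by
    intro v hv
    unfold lf
    rw [hx, if_pos ⟨rfl, hv⟩]
  have hlfn : ∀ v₀ v, v ≠ v₀ → lf ρ v₀ v = x v := by
    intro v₀ v hv
    unfold lf
    rw [hx, if_neg (fun h => hv h.1), add_zero]
  have hxnd : ∀ v, ρ v ≠ 0 → ¬ (ℓ : ℤ) ∣ x v := by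
    intro v hv
    rw [hx]
    exact val_ndvd hv
  -- the elements of `A₁`
  obtain ⟨c₁, hc₁, hc₁1⟩ : ∃ c ∈ A₁, c ≠ 1 := by
    by_contra hcon
    push Not at hcon
    exact hA1 ((Subgroup.eq_bot_iff_forall A₁).2 hcon)
  have hDc : ∀ c ∈ A₁, c ≠ 1 → D c = D c₁ := by
    intro c hc hc1
    have h4 : c ∈ Subgroup.zpowers c₁ := by
      rw [(h3 c₁ hc₁ hc₁1).1]
      exact hc
    rw [← mem_powers_iff_mem_zpowers] at h4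
    obtain ⟨j, rfl⟩ := h4
    apply hDj
    rintro ⟨i, rfl⟩
    apply hc1
    change c₁ ^ (ℓ * i) = 1
    rw [pow_mul, hD.ex, one_pow]
  obtain ⟨k₁, hk₁⟩ : ∃ k₁ : ℕ, k₁ = Nat.card (St E₀ A₁) := ⟨_, rfl⟩
  have hkE : ∀ c ∈ A₁, c ≠ 1 → kE E₀ c = k₁ := fun c hc hc1 => by
    rw [hk₁]
    exact (h3 c hc hc1).2.1
  obtain ⟨-, g2, g3, g4, g5⟩ := h3 c₁ hc₁ hc₁1
  obtain ⟨n₁, hn₁⟩ : ∃ n₁ : ℕ, n₁ = nE E₀ c₁ := ⟨_, rfl⟩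
  rw [g2, ← hk₁, ← hn₁] at g3
  rw [g2, ← hk₁] at g4
  rw [← hn₁] at g5
  have hk₁0 : (k₁ : ℚ) ≠ 0 := by
    have : k₁ ≠ 0 := fun h => g4 (h ▸ dvd_zero _)
    exact_mod_cast this
  obtain ⟨D₀, hD₀⟩ : ∃ D₀ : ℚ, D₀ = D c₁ := ⟨_, rfl⟩
  rw [← hD₀] at hDc
  -- the relation with finite sums
  obtain ⟨T, hT⟩ : ∃ T : V₀ → V₀ → Finset (MulAut V₀), T = fun c d =>
    Finset.univ.filter fun σ : MulAut V₀ => σ ∈ E₀ ∧ c * σ d ≠ 1 := ⟨_, rfl⟩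
  have hmT : ∀ c d σ, σ ∈ T c d ↔ σ ∈ E₀ ∧ c * σ d ≠ 1 := by
    intro c d σ
    rw [hT]
    simp
  have hmA : ∀ c ∈ A₁, ∀ d ∈ A₁, ∀ σ ∈ E₀, c * σ d ∈ A₁ := fun c hc d hd σ hσ =>
    A₁.mul_mem hc (hD.s1 σ hσ d hd)
  have hR' : ∀ c ∈ A₁, ∀ d ∈ A₁, c ≠ 1 → d ≠ 1 → ∀ v₀ : V₀,
      ((lf ρ v₀ c⁻¹ * x d⁻¹ : ℤ) : ℚ) / ℓ ^ 2 * N c d -
        (k₁ : ℚ)⁻¹ * ∑ σ ∈ T c d, ((lf ρ v₀ (c * σ d)⁻¹ * x (σ⁻¹ (c * σ d))⁻¹ : ℤ) : ℚ) / ℓ ^ 2 *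
          D₀ ∈ SOR.Rl ℓ := by
    intro c hc d hd hc1 hd1 v₀
    have h4 := hR c hc d hd hc1 hd1 v₀
    rw [hkE c hc hc1, hlf1, fs (fun σ : MulAut V₀ => σ ∈ E₀ ∧ c * σ d ≠ 1)] at h4
    have h5 : ∑ σ ∈ T c d, ((lf ρ v₀ (c * σ d)⁻¹ * x (σ⁻¹ (c * σ d))⁻¹ : ℤ) : ℚ) / ℓ ^ 2 * D₀ =
        ∑ σ ∈ Finset.univ.filter (fun σ : MulAut V₀ => σ ∈ E₀ ∧ c * σ d ≠ 1),
        ((lf ρ v₀ (c * σ d)⁻¹ * lf ρ 1 (σ⁻¹ (c * σ d))⁻¹ : ℤ) : ℚ) / ℓ ^ 2 * D (c * σ d) := by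
      rw [hT]
      refine Finset.sum_congr rfl fun σ hσ => ?_
      have h6 := (Finset.mem_filter.1 hσ).2
      rw [hlf1, hDc _ (hmA c hc d hd σ h6.1) h6.2]
    rw [h5]
    exact h4
  -- (a)
  have hNa : ∀ c ∈ A₁, ∀ d ∈ A₁, c ≠ 1 → d ≠ 1 → ∃ q ∈ SOR.Rl ℓ, N c d = (ℓ : ℚ) ^ 1 * q := by
    intro c hc d hd hc1 hd1
    have h4 := sub_mem (hR' c hc d hd hc1 hd1 c⁻¹) (hR' c hc d hd hc1 hd1 1)
    have h5 : ∑ σ ∈ T c d, ((lf ρ c⁻¹ (c * σ d)⁻¹ * x (σ⁻¹ (c * σ d))⁻¹ : ℤ) : ℚ) / ℓ ^ 2 * D₀ =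
        ∑ σ ∈ T c d, ((lf ρ 1 (c * σ d)⁻¹ * x (σ⁻¹ (c * σ d))⁻¹ : ℤ) : ℚ) / ℓ ^ 2 * D₀ := by
      refine Finset.sum_congr rfl fun σ hσ => ?_
      rw [hlfn, hlf1]
      intro h6
      have h7 : c * σ d = c * 1 := by rw [inv_inj.1 h6, mul_one]
      have h8 := mul_left_cancel h7
      rw [← map_one σ] at h8
      exact hd1 (σ.injective h8)
    have hρc : ρ c⁻¹ ≠ 0 := by
      rw [rinv]
      exact neg_ne_zero.2 (hρ1 c hc hc1)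
    have hρd : ρ d⁻¹ ≠ 0 := by
      rw [rinv]
      exact neg_ne_zero.2 (hρ1 d hd hd1)
    rw [h5, hlfe _ hρc, hlf1 c⁻¹, sub_sub_sub_cancel_right] at h4
    apply cancel (hxnd _ hρd)
    refine ⟨_, h4, ?_⟩
    push_cast
    field_simp
    ring
  -- (b)
  have hc2 : ρ (c₁ * c₁) ≠ 0 := by
    rw [hρ, ← two_mul]
    apply mul_ne_zero _ (hρ1 c₁ hc₁ hc₁1)
    intro h
    have h4 : ((2 : ℕ) : ZMod ℓ) = 0 := by exact_mod_cast h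
    rw [ZMod.natCast_eq_zero_iff] at h4
    exact hℓ2 ((Nat.prime_dvd_prime_iff_eq hℓ Nat.prime_two).1 h4)
  have hDa : ∃ q ∈ SOR.Rl ℓ, D₀ = (ℓ : ℚ) ^ 1 * q := by
    have h4 := sub_mem (hR' c₁ hc₁ c₁ hc₁ hc₁1 hc₁1 1) (hR' c₁ hc₁ c₁ hc₁ hc₁1 hc₁1 (c₁ * c₁)⁻¹)
    have hρi : ρ (c₁ * c₁)⁻¹ ≠ 0 := by
      rw [rinv]
      exact neg_ne_zero.2 hc2
    rw [hlf1 c₁⁻¹, hlfn (c₁ * c₁)⁻¹ c₁⁻¹ (fun h => hc₁1 (mul_eq_left.1 (inv_inj.1 h).symm))] at h4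
    have h5 : ∑ σ ∈ T c₁ c₁, ((lf ρ (c₁ * c₁)⁻¹ (c₁ * σ c₁)⁻¹ *
        x (σ⁻¹ (c₁ * σ c₁))⁻¹ : ℤ) : ℚ) / ℓ ^ 2 * D₀ =
        ∑ σ ∈ T c₁ c₁, ((lf ρ 1 (c₁ * σ c₁)⁻¹ * x (σ⁻¹ (c₁ * σ c₁))⁻¹ : ℤ) : ℚ) / ℓ ^ 2 * D₀ +
          (k₁ : ℚ) * ((x (c₁ * c₁)⁻¹ : ℚ) / ℓ * D₀) := by
      have h6 : ∀ σ ∈ T c₁ c₁, ((lf ρ (c₁ * c₁)⁻¹ (c₁ * σ c₁)⁻¹ *
          x (σ⁻¹ (c₁ * σ c₁))⁻¹ : ℤ) : ℚ) / ℓ ^ 2 * D₀ =
          ((lf ρ 1 (c₁ * σ c₁)⁻¹ * x (σ⁻¹ (c₁ * σ c₁))⁻¹ : ℤ) : ℚ) / ℓ ^ 2 * D₀ +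
            (if σ c₁ = c₁ then (x (c₁ * c₁)⁻¹ : ℚ) / ℓ * D₀ else 0) := by
        intro σ _
        split_ifs with h
        · have h7 : σ⁻¹ (c₁ * c₁) = c₁ * c₁ := by
            rw [MulAut.inv_apply, MulEquiv.symm_apply_eq, map_mul, h]
          rw [h, hlfe _ hρi, hlf1, h7]
          push_cast
          field_simp
        · rw [hlfn, hlf1, add_zero]
          intro h7
          exact h (mul_left_cancel (inv_inj.1 h7))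
      rw [Finset.sum_congr rfl h6, Finset.sum_add_distrib]
      congr 1
      rw [← Finset.sum_filter, Finset.sum_const, nsmul_eq_mul]
      congr 1
      rw [← hkE c₁ hc₁ hc₁1]
      unfold kE
      rw [Nat.card_eq_fintype_card, Fintype.card_subtype]
      norm_cast
      congr 1
      ext σ
      rw [Finset.mem_filter, hmT, Finset.mem_filter]
      constructor
      · rintro ⟨⟨h7, -⟩, h8⟩
        exact ⟨Finset.mem_univ _, h7, h8⟩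
      · rintro ⟨-, h7, h8⟩
        refine ⟨⟨h7, ?_⟩, h8⟩
        rw [h8]
        intro h9
        rw [h9, r1] at hc2
        exact hc2 rfl
    have e : ∀ B S Z : ℚ, (B - (k₁ : ℚ)⁻¹ * S) - (B - (k₁ : ℚ)⁻¹ * (S + k₁ * Z)) = Z := by
      intro B S Z
      field_simp
      ring
    rw [h5, e] at h4
    apply cancel (hxnd _ hρi)
    refine ⟨_, h4, ?_⟩
    field_simp
  obtain ⟨δ, hδ, hDδ⟩ := hDa
  rw [pow_one] at hDδ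
  -- (c)
  have hcardE : (Finset.univ.filter fun σ : MulAut V₀ => σ ∈ E₀).card = Nat.card E₀ := by
    rw [Nat.card_eq_fintype_card, Fintype.card_subtype]
  have hNc : ∀ c ∈ A₁, ∀ d ∈ A₁, c ≠ 1 → d ≠ 1 → ∃ q ∈ SOR.Rl ℓ,
      N c d = 2 * n₁ * D₀ + (ℓ : ℚ) ^ 2 * q := by
    intro c hc d hd hc1 hd1
    obtain ⟨ν, hν, hNν⟩ := hNa c hc d hd hc1 hd1
    rw [pow_one] at hNν
    have h4 := hR' c hc d hd hc1 hd1 1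
    obtain ⟨Sg, hSg⟩ : ∃ Sg : ℤ, Sg = ∑ σ ∈ T c d, x (c * σ d)⁻¹ * x (σ⁻¹ (c * σ d))⁻¹ := ⟨_, rfl⟩
    have h5 : ∑ σ ∈ T c d, ((lf ρ 1 (c * σ d)⁻¹ * x (σ⁻¹ (c * σ d))⁻¹ : ℤ) : ℚ) / ℓ ^ 2 * D₀ =
        (Sg : ℚ) / ℓ ^ 2 * D₀ := by
      rw [hSg]
      push_cast
      rw [Finset.sum_div, Finset.sum_mul]
      exact Finset.sum_congr rfl fun σ _ => by rw [hlf1]
    rw [h5, hlf1] at h4
    -- the sum modulo `ℓ`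
    have h6 : ((Sg : ℤ) : ZMod ℓ) = 2 * (ρ c * ρ d) * (Nat.card E₀ : ZMod ℓ) := by
      have h7 : ((Sg : ℤ) : ZMod ℓ) = ∑ σ ∈ Finset.univ.filter (fun σ : MulAut V₀ => σ ∈ E₀),
          (χ σ⁻¹ * ρ c ^ 2 + 2 * (ρ c * ρ d) + χ σ * ρ d ^ 2) := by
        rw [hSg]
        push_cast
        have h8 : T c d = (Finset.univ.filter (fun σ : MulAut V₀ => σ ∈ E₀)).filter
            (fun σ => c * σ d ≠ 1) := by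
          rw [hT, Finset.filter_filter]
        rw [h8, Finset.sum_filter]
        refine Finset.sum_congr rfl fun σ hσ => ?_
        have hσ' := (Finset.mem_filter.1 hσ).2
        have h9 : χ σ⁻¹ * χ σ = 1 := hχ1 σ hσ'
        have h10 : ρ (c * σ d) = ρ c + χ σ * ρ d := by
          rw [hρ, hχ2 ρ hρ hρ2 σ hσ']
        have h11 : ρ (σ⁻¹ (c * σ d)) = χ σ⁻¹ * ρ (c * σ d) :=
          hχ2 ρ hρ hρ2 σ⁻¹ (E₀.inv_mem hσ') _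
        have h12 : ρ (c * σ d)⁻¹ * ρ (σ⁻¹ (c * σ d))⁻¹ =
            χ σ⁻¹ * ρ c ^ 2 + 2 * (ρ c * ρ d) + χ σ * ρ d ^ 2 := by
          rw [rinv, rinv, h11, h10]
          linear_combination (2 * ρ c * ρ d + χ σ * ρ d ^ 2) * h9
        split_ifs with h13
        · rw [hxc, hxc, h12]
        · push Not at h13
          rw [← h12, h13, inv_one, r1, zero_mul]
      have a1 : ∑ σ ∈ Finset.univ.filter (fun σ : MulAut V₀ => σ ∈ E₀), χ σ⁻¹ * ρ c ^ 2 = 0 := by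
        rw [← Finset.sum_mul, ← fs (fun σ : MulAut V₀ => σ ∈ E₀), hχ4, zero_mul]
      have a2 : ∑ σ ∈ Finset.univ.filter (fun σ : MulAut V₀ => σ ∈ E₀), χ σ * ρ d ^ 2 = 0 := by
        rw [← Finset.sum_mul, ← fs (fun σ : MulAut V₀ => σ ∈ E₀), hχ3, zero_mul]
      rw [h7, Finset.sum_add_distrib, Finset.sum_add_distrib, a1, a2, Finset.sum_const, hcardE,
        nsmul_eq_mul]
      ring
    obtain ⟨X, hX⟩ : ∃ X : ℤ, X = x c⁻¹ * x d⁻¹ := ⟨_, rfl⟩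
    rw [← hX] at h4
    have hXc : ((X : ℤ) : ZMod ℓ) = ρ c * ρ d := by
      rw [hX]
      push_cast
      rw [hxc, hxc, rinv, rinv]
      ring
    have hXnd : ¬ (ℓ : ℤ) ∣ X := by
      rw [← ZMod.intCast_zmod_eq_zero_iff_dvd, hXc]
      exact mul_ne_zero (hρ1 c hc hc1) (hρ1 d hd hd1)
    obtain ⟨w, hw⟩ : (ℓ : ℤ) ∣ Sg - 2 * X * (n₁ * k₁) := by
      rw [← ZMod.intCast_zmod_eq_zero_iff_dvd]
      push_cast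
      rw [h6, hXc, ← g3]
      push_cast
      ring
    have hnd : ¬ (ℓ : ℤ) ∣ (k₁ : ℤ) * X := by
      intro h
      rcases hℓp.dvd_or_dvd h with h | h
      · exact g4 (by exact_mod_cast h)
      · exact hXnd h
    have hw' : (Sg : ℚ) = 2 * X * (n₁ * k₁) + ℓ * w := by
      have : Sg = 2 * X * (n₁ * k₁) + ℓ * w := by linarith
      exact_mod_cast this
    obtain ⟨q, hq, h14⟩ : ∃ q ∈ SOR.Rl ℓ, ν - 2 * n₁ * δ = (ℓ : ℚ) ^ 1 * q := by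
      apply cancel hnd
      refine ⟨k₁ * ((X : ℚ) / ℓ ^ 2 * N c d - (k₁ : ℚ)⁻¹ * ((Sg : ℚ) / ℓ ^ 2 * D₀)) + δ * w,
        add_mem (mul_mem (nat_rl _) h4) (mul_mem hδ (int_rl _)), ?_⟩
      rw [hNν, hDδ, hw']
      push_cast
      field_simp
      ring
    refine ⟨q, hq, ?_⟩
    rw [hNν, hDδ]
    have : ν = 2 * n₁ * δ + ℓ ^ 1 * q := by linarith
    rw [this]
    ring
  -- (d)
  have hpw : ∀ t ∈ Finset.Icc 1 (ℓ - 1), c₁ ^ t ∈ A₁ ∧ c₁ ^ t ≠ 1 := by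
    intro t ht
    obtain ⟨ht1, ht2⟩ := Finset.mem_Icc.1 ht
    refine ⟨A₁.pow_mem hc₁ t, fun h => ?_⟩
    have h4 : orderOf c₁ = ℓ := orderOf_eq_prime (hD.ex c₁) hc₁1
    have h5 := orderOf_dvd_of_pow_eq_one h
    rw [h4] at h5
    have := Nat.le_of_dvd (by omega) h5
    have := hℓ.two_le
    omega
  have hch : ∀ t s : ℕ, ∃ q, t ∈ Finset.Icc 1 (ℓ - 1) → s ∈ Finset.Icc 1 (ℓ - 1) →
      q ∈ SOR.Rl ℓ ∧ N (c₁ ^ t) (c₁ ^ s) = 2 * n₁ * D₀ + (ℓ : ℚ) ^ 2 * q := by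
    intro t s
    by_cases ht : t ∈ Finset.Icc 1 (ℓ - 1)
    · by_cases hs : s ∈ Finset.Icc 1 (ℓ - 1)
      · obtain ⟨q, hq, h⟩ := hNc _ (hpw t ht).1 _ (hpw s hs).1 (hpw t ht).2 (hpw s hs).2
        exact ⟨q, fun _ _ => ⟨hq, h⟩⟩
      · exact ⟨0, fun _ h => absurd h hs⟩
    · exact ⟨0, fun h => absurd h ht⟩
  choose Q hQ using hch
  obtain ⟨q, hq, hSq⟩ := hS c₁ c₁ hc₁1 hc₁1
  rw [← hn₁] at hSq
  have s1 : ∑ t ∈ Finset.Icc 1 (ℓ - 1), D (c₁ ^ t) = ((ℓ - 1 : ℕ) : ℚ) * D₀ := by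
    rw [Finset.sum_congr rfl (fun t ht => hDc _ (hpw t ht).1 (hpw t ht).2), Finset.sum_const,
      Nat.card_Icc, nsmul_eq_mul, Nat.add_sub_cancel]
  have s2 : ∑ t ∈ Finset.Icc 1 (ℓ - 1), ∑ s ∈ Finset.Icc 1 (ℓ - 1), N (c₁ ^ t) (c₁ ^ s) =
      ((ℓ - 1 : ℕ) : ℚ) * (((ℓ - 1 : ℕ) : ℚ) * (2 * n₁ * D₀)) +
        (ℓ : ℚ) ^ 2 * ∑ t ∈ Finset.Icc 1 (ℓ - 1), ∑ s ∈ Finset.Icc 1 (ℓ - 1), Q t s := by
    rw [Finset.sum_congr rfl (fun t ht => Finset.sum_congr rfl fun s hs => (hQ t s ht hs).2)]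
    simp only [Finset.sum_add_distrib, Finset.sum_const, Nat.card_Icc, Nat.add_sub_cancel,
      nsmul_eq_mul, Finset.mul_sum]
  rw [s1, s2] at hSq
  have hQR : ∑ t ∈ Finset.Icc 1 (ℓ - 1), ∑ s ∈ Finset.Icc 1 (ℓ - 1), Q t s ∈ SOR.Rl ℓ :=
    sum_mem fun t ht => sum_mem fun s hs => (hQ t s ht hs).1
  have hcast : ((ℓ - 1 : ℕ) : ℚ) = (ℓ : ℚ) - 1 := by
    rw [Nat.cast_sub hℓ.one_le, Nat.cast_one]
  rw [hcast] at hSq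
  have hfin : ∃ q' ∈ SOR.Rl ℓ, ((((n₁ : ℤ) ^ 2 : ℤ)) : ℚ) * (k : ℚ) = (ℓ : ℚ) ^ 2 * q' := by
    refine ⟨q - (∑ t ∈ Finset.Icc 1 (ℓ - 1), ∑ s ∈ Finset.Icc 1 (ℓ - 1), Q t s) -
      ((2 * n₁ : ℕ) : ℚ) * δ * ((ℓ - 1 : ℕ) : ℚ),
      sub_mem (sub_mem hq hQR) (mul_mem (mul_mem (nat_rl _) hδ) (nat_rl _)), ?_⟩
    rw [hcast]
    push_cast
    rw [hDδ] at hSq
    linear_combination hSq
  have hn₁2 : ¬ (ℓ : ℤ) ∣ (n₁ : ℤ) ^ 2 := by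
    intro h
    exact g5 (by exact_mod_cast hℓp.dvd_of_dvd_pow h)
  exact int_of_rl (cancel hn₁2 hfin)

end Pool.Agent.PP.SD.H1
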