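import Pool.Agent.ASD.Stmts8
import Pool.Agent.Helper83_AT2.FRS
import Pool.Agent.Helper23_AT2.TES

/-!
# Squad ASD, row LNT: the theorem of Fong and Reynolds for the number of modular characters
-/

set_option autoImplicit false

open scoped BigOperators

noncomputable section

namespace Pool.Agent.PP.SD.H1

open Pool.Agent.Helper51_AWC Pool.Agent.Helper79_WRA Pool.Agent.PP Pool.Agent.PP.KF
open Pool.Agent.PP.K9 Pool.Agent.PP.K9.H97 Pool.Agent.PP.H75 Pool.Agent.PP.T3 Pool.Agent.PP.SO
open Pool.Agent.PP.SD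

/-- the alternating sum for the trivial subgroup -/
theorem yy_bot {ℓ : ℕ} [Fact ℓ.Prime] {F G : Type} [Field F] [Group G] [Finite G] (e : G → F) :
    YY ℓ (⊥ : Subgroup G) e = (Nat.card G : ℤ) * (ln e : ℤ) := by
  have h1 : chainsOn (psubIn ℓ (⊥ : Subgroup G)) ⊥ = {{⊥}} := by
    ext d
    rw [mem_chainsOn, Finset.mem_singleton]
    constructor
    · rintro ⟨h1, h2, -⟩
      ext D
      rw [Finset.mem_singleton]
      constructor
      · intro hD
        exact le_bot_iff.1 (mem_psubIn'.1 (h1 hD)).1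
      · rintro rfl
        exact h2
    · rintro rfl
      refine ⟨?_, Finset.mem_singleton_self _, ?_⟩
      · intro D hD
        rw [Finset.mem_singleton.1 hD]
        exact mem_psubIn'.2 ⟨le_rfl, IsPGroup.of_bot⟩
      · rw [Finset.coe_singleton]
        exact Set.subsingleton_singleton.isChain
  have h2 : stab ({⊥} : Finset (Subgroup G)) = ⊤ := by
    unfold stab
    rw [Finset.iInf_singleton]
    exact Subgroup.normalizer_eq_top_iff.2 inferInstance
  unfold YY
  rw [h1, Finset.sum_singleton, h2, Finset.card_singleton, T2.H23.ln_eq, Subgroup.card_top]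
  norm_num

theorem lnt : LntStmt := by
  intro ℓ _ F _ hF N _ _ C hC e he b hb heb
  have h : Bd C b := ⟨hC, hb.supp, hb.blk⟩
  have hb0 : b ≠ 0 := by
    rintro rfl
    exact hb.blk.2.1 rfl
  have hne : mulF e b ≠ 0 := by rwa [heb]
  have h1 := h.yy H94.nch H74.orb H20.nls H20.ibf H20.ibj H20.ibn H20.eig hF he hne
    (R := ⊥) inferInstance
  have h2 : (⊥ : Subgroup N).subgroupOf (st b) = ⊥ := Subgroup.bot_subgroupOf _
  rw [h2, yy_bot, yy_bot, heb, ← mul_assoc] at h1
  have h3 : ((st b).index : ℤ) * (Nat.card (st b) : ℤ) = (Nat.card N : ℤ) := by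
    have := (st b).index_mul_card
    exact_mod_cast this
  rw [h3] at h1
  have h4 : (Nat.card N : ℤ) ≠ 0 := by exact_mod_cast Nat.card_pos.ne'
  exact_mod_cast mul_left_cancel₀ h4 h1

end Pool.Agent.PP.SD.H1
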